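import Mathlib

/-!
# Proper edge colourings and rainbow copies: definitions
-/

set_option autoImplicit false

namespace Pool.Agent.R60.Rainbow

/-- An edge colouring `c` of `G` is proper if any two distinct edges of `G` that share a vertex get
different colours. (Colours are natural numbers; the values of `c` at non-edges do not matter.) -/
def IsProper {V : Type} (G : SimpleGraph V) (c : Sym2 V → ℕ) : Prop :=
  ∀ u v w : V, G.Adj u v → G.Adj u w → v ≠ w → c s(u, v) ≠ c s(u, w)

/-- The number of colours that the edge colouring `c` uses on the edges of `G`. -/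
noncomputable def numColours {V : Type} (G : SimpleGraph V) (c : Sym2 V → ℕ) : ℕ :=
  (c '' G.edgeSet).ncard

/-- The chromatic index: the least number of colours used by a proper edge colouring. -/
noncomputable def chromaticIndex {V : Type} (G : SimpleGraph V) : ℕ :=
  sInf {m | ∃ c : Sym2 V → ℕ, IsProper G c ∧ numColours G c = m}

/-- `G` contains a rainbow copy of `H` under the edge colouring `c`: there is an injective map `f`
of the vertices of `H` to the vertices of `G` that takes edges to edges, such that different edges
of `H` are taken to edges with different colours. -/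
def HasRainbowCopy {W V : Type} (H : SimpleGraph W) (G : SimpleGraph V) (c : Sym2 V → ℕ) : Prop :=
  ∃ f : W → V, Function.Injective f ∧ (∀ a b, H.Adj a b → G.Adj (f a) (f b)) ∧
    ∀ e ∈ H.edgeSet, ∀ e' ∈ H.edgeSet, e ≠ e' → c (Sym2.map f e) ≠ c (Sym2.map f e')

lemma numColours_le_of_bound {V : Type} (G : SimpleGraph V) (c : Sym2 V → ℕ) (m : ℕ)
    (h : ∀ e ∈ G.edgeSet, c e < m) : numColours G c ≤ m := by
  have h1 : c '' G.edgeSet ⊆ (Finset.range m : Set ℕ) := by
    rintro _ ⟨e, he, rfl⟩
    simpa using h e he
  have h2 := Set.ncard_le_ncard h1 (Finset.finite_toSet _)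
  rwa [Set.ncard_coe_finset, Finset.card_range] at h2

/-- If some vertex is joined to all vertices of a set `S`, every proper colouring uses at least
`|S|` colours; more precisely the colours at that vertex are different. -/
lemma star_injOn {V : Type} {G : SimpleGraph V} {c : Sym2 V → ℕ} (hc : IsProper G c) (v : V)
    (S : Set V) (hS : ∀ w ∈ S, G.Adj v w) : Set.InjOn (fun w => c s(v, w)) S := by
  intro a ha b hb hab
  by_contra hne
  exact hc v a b (hS a ha) (hS b hb) hne hab

lemma star_card_le {V : Type} [Finite V] {G : SimpleGraph V} {c : Sym2 V → ℕ}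
    (hc : IsProper G c) (v : V) (S : Set V) (hS : ∀ w ∈ S, G.Adj v w) :
    S.ncard ≤ numColours G c := by
  rw [← (star_injOn hc v S hS).ncard_image]
  refine Set.ncard_le_ncard ?_ ((Set.toFinite _).image c)
  rintro _ ⟨w, hw, rfl⟩
  exact ⟨s(v, w), hS w hw, rfl⟩

/-- The chromatic index is `m` if some proper colouring uses at most `m` colours and some vertex has
`m` neighbours. -/
lemma chromaticIndex_eq {V : Type} [Finite V] {G : SimpleGraph V} {m : ℕ} (c : Sym2 V → ℕ)
    (hc : IsProper G c) (hcm : ∀ e ∈ G.edgeSet, c e < m) (v : V) (S : Set V)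
    (hS : ∀ w ∈ S, G.Adj v w) (hSm : S.ncard = m) : chromaticIndex G = m := by
  apply le_antisymm
  · refine le_trans (Nat.sInf_le ⟨c, hc, rfl⟩) (numColours_le_of_bound G c m hcm)
  · refine le_csInf ⟨_, c, hc, rfl⟩ ?_
    rintro m' ⟨c', hc', rfl⟩
    rw [← hSm]
    exact star_card_le hc' v S hS

end Pool.Agent.R60.Rainbow
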