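import Mathlib

/-!
# Strong arboricity: definitions, the upper bound `2 (col - 1)` and a sharp lower bound
-/

set_option autoImplicit false

namespace Pool.Agent.R60.SW

open SimpleGraph

/-- An edge colouring `c` of `G` is strongly woody if no broken cycle is monochromatic. A broken
cycle `C - e` is the same as a path `q` with at least two edges whose ends `u`, `v` are adjacent
in `G` (close it with the edge `e = uv` to get the cycle `C`). -/
def IsStronglyWoody {V : Type} (G : SimpleGraph V) (c : Sym2 V → ℕ) : Prop :=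
  ∀ (u v : V) (q : G.Walk u v), q.IsPath → 2 ≤ q.length → G.Adj u v →
    ¬ ∃ i, ∀ e ∈ q.edges, c e = i

/-- The strong arboricity: the least `k` such that `G` has a strongly woody edge colouring with the
colours `0, …, k - 1`. -/
noncomputable def strongArb {V : Type} (G : SimpleGraph V) : ℕ :=
  sInf {k | ∃ c : Sym2 V → ℕ, (∀ e ∈ G.edgeSet, c e < k) ∧ IsStronglyWoody G c}

/-- The colouring number: the least `r` such that for some linear ordering of the vertices (given
by an injective map `pos` to the natural numbers) every vertex has back-degree less than `r`, that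
is, at most `r - 1`. -/
noncomputable def colNumber {V : Type} (G : SimpleGraph V) : ℕ :=
  sInf {r | ∃ pos : V → ℕ, Function.Injective pos ∧
    ∀ v, {w | G.Adj v w ∧ pos w < pos v}.ncard < r}

/-! ### Recursion along an ordering -/

lemma exists_rec {V α : Type} [Inhabited α] (pos : V → ℕ) (C : V → (V → α) → α → Prop)
    (hex : ∀ v f, ∃ a, C v f a) :
    ∃ f : V → α, ∀ v, C v (fun w => if pos w < pos v then f w else default) (f v) := by
  classical
  let F : (v : V) → ((w : V) → pos w < pos v → α) → α := fun v rec =>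
    Classical.choose (hex v (fun w => if h : pos w < pos v then rec w h else default))
  let f : V → α := (measure pos).wf.fix (fun v rec => F v (fun w h => rec w h))
  refine ⟨f, fun v => ?_⟩
  have h1 : f v = F v (fun w _ => f w) := (measure pos).wf.fix_eq _ v
  rw [h1]
  have h2 := Classical.choose_spec (hex v (fun w => if pos w < pos v then f w else default))
  have h3 : (fun w => if h : pos w < pos v then (fun (w : V) (_ : pos w < pos v) => f w) w h
      else (default : α)) = (fun w => if pos w < pos v then f w else default) := by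
    funext w
    split_ifs <;> rfl
  show C v _ (Classical.choose (hex v (fun w => if h : pos w < pos v then
    (fun (w : V) (_ : pos w < pos v) => f w) w h else default)))
  rw [h3]
  exact h2

/-! ### The upper bound -/

section Upper

variable {V : Type} (pos : V → ℕ) (P : V → Finset V) (d : ℕ)

/-- the greedy choice of indices at one vertex -/
lemma exists_indices (S : Finset V) (hpos : Function.Injective pos) (hS : S.card ≤ d)
    (g : V → V → ℕ) : ∃ h : V → ℕ, (∀ u ∈ S, h u < d) ∧ (∀ u ∈ S, ∀ u' ∈ S, h u = h u' → u = u') ∧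
      ∀ x ∈ S, ∀ y ∈ S, pos y < pos x → h y ≠ g x y := by
  classical
  obtain ⟨h, hh⟩ := exists_rec (α := ℕ) pos
    (fun y f a => y ∈ S → a < d ∧ (∀ z ∈ S, pos z < pos y → a ≠ f z) ∧
      ∀ x ∈ S, pos y < pos x → a ≠ g x y) (by
    intro y f
    by_cases hy : y ∈ S
    · let B : Finset ℕ := (S.filter (fun z => pos z < pos y)).image f ∪
        (S.filter (fun x => pos y < pos x)).image (fun x => g x y)
      have hB : B.card < d := by
        have h1 : B.card ≤ (S.filter (fun z => pos z < pos y)).card +
            (S.filter (fun x => pos y < pos x)).card :=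
          (Finset.card_union_le _ _).trans
            (Nat.add_le_add Finset.card_image_le Finset.card_image_le)
        have h2 : (S.filter (fun z => pos z < pos y)).card +
            (S.filter (fun x => pos y < pos x)).card ≤ (S.erase y).card := by
          rw [← Finset.card_union_of_disjoint]
          · apply Finset.card_le_card
            intro z hz
            rw [Finset.mem_union, Finset.mem_filter, Finset.mem_filter] at hz
            rw [Finset.mem_erase]
            rcases hz with hz | hz
            · refine ⟨?_, hz.1⟩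
              rintro rfl
              exact lt_irrefl _ hz.2
            · refine ⟨?_, hz.1⟩
              rintro rfl
              exact lt_irrefl _ hz.2
          · rw [Finset.disjoint_left]
            intro z hz hz'
            have a1 := (Finset.mem_filter.mp hz).2
            have a2 := (Finset.mem_filter.mp hz').2
            omega
        have h3 : 0 < S.card := Finset.card_pos.mpr ⟨y, hy⟩
        rw [Finset.card_erase_of_mem hy] at h2
        omega
      obtain ⟨a, ha1, ha2⟩ := Finset.exists_mem_notMem_of_card_lt_card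
        (s := B) (t := Finset.range d) (by rw [Finset.card_range]; exact hB)
      refine ⟨a, fun _ => ⟨Finset.mem_range.mp ha1, ?_, ?_⟩⟩
      · rintro z hz hzy rfl
        apply ha2
        rw [Finset.mem_union]
        left
        exact Finset.mem_image_of_mem f (Finset.mem_filter.mpr ⟨hz, hzy⟩)
      · rintro x hx hxy rfl
        apply ha2
        rw [Finset.mem_union]
        right
        exact Finset.mem_image_of_mem (fun x => g x y) (Finset.mem_filter.mpr ⟨hx, hxy⟩)
    · exact ⟨0, fun h => absurd h hy⟩)
  refine ⟨h, fun u hu => (hh u hu).1, ?_, fun x hx y hy hxy => (hh y hy).2.2 x hx hxy⟩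
  intro u hu u' hu' heq
  rcases lt_trichotomy (pos u) (pos u') with hlt | heq' | hlt
  · have := (hh u' hu').2.1 u hu hlt
    beta_reduce at this
    rw [if_pos hlt] at this
    exact absurd heq.symm this
  · exact hpos heq'
  · have := (hh u hu).2.1 u' hu' hlt
    beta_reduce at this
    rw [if_pos hlt] at this
    exact absurd heq this

/-- all indices -/
lemma exists_idx (hpos : Function.Injective pos) (hP1 : ∀ v, (P v).card ≤ d)
    (hP2 : ∀ v, ∀ u ∈ P v, pos u < pos v) :
    ∃ idx : V → V → ℕ, ∀ v, (∀ u ∈ P v, idx v u < d) ∧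
      (∀ u ∈ P v, ∀ u' ∈ P v, idx v u = idx v u' → u = u') ∧
      ∀ x ∈ P v, ∀ y ∈ P v, pos y < pos x → idx v y ≠ idx x y := by
  obtain ⟨idx, hidx⟩ := exists_rec (α := V → ℕ) pos
    (fun v f h => (∀ u ∈ P v, h u < d) ∧ (∀ u ∈ P v, ∀ u' ∈ P v, h u = h u' → u = u') ∧
      ∀ x ∈ P v, ∀ y ∈ P v, pos y < pos x → h y ≠ f x y)
    (fun v f => exists_indices pos d (P v) hpos (hP1 v) f)
  refine ⟨idx, fun v => ⟨(hidx v).1, (hidx v).2.1, fun x hx y hy hxy => ?_⟩⟩
  have := (hidx v).2.2 x hx y hy hxy
  beta_reduce at this
  rw [if_pos (hP2 v x hx)] at this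
  exact this

/-- parities of the depths in the forests -/
lemma exists_par (hP2 : ∀ v, ∀ u ∈ P v, pos u < pos v) (idx : V → V → ℕ)
    (hinj : ∀ v, ∀ u ∈ P v, ∀ u' ∈ P v, idx v u = idx v u' → u = u') :
    ∃ par : V → ℕ → Bool, ∀ v, ∀ u ∈ P v, par v (idx v u) = !(par u (idx v u)) := by
  classical
  obtain ⟨par, hpar⟩ := exists_rec (α := ℕ → Bool) pos
    (fun v f b => ∀ u ∈ P v, b (idx v u) = !(f u (idx v u))) (by
    intro v f
    refine ⟨fun i => if h : ∃ u ∈ P v, idx v u = i then !(f h.choose i) else true, ?_⟩
    intro u hu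
    have h : ∃ u' ∈ P v, idx v u' = idx v u := ⟨u, hu, rfl⟩
    have h1 : h.choose = u := hinj v _ h.choose_spec.1 u hu h.choose_spec.2
    simp only [dif_pos h, h1])
  refine ⟨par, fun v u hu => ?_⟩
  have := hpar v u hu
  beta_reduce at this
  rw [if_pos (hP2 v u hu)] at this
  exact this

end Upper

/-- Every graph with an ordering of back-degree at most `d` has a strongly woody colouring with
`2 d` colours. -/
theorem upper {V : Type} [Finite V] (G : SimpleGraph V) (d : ℕ) (pos : V → ℕ)
    (hpos : Function.Injective pos) (hd : ∀ v, {w | G.Adj v w ∧ pos w < pos v}.ncard ≤ d) :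
    ∃ c : Sym2 V → ℕ, (∀ e ∈ G.edgeSet, c e < 2 * d) ∧ IsStronglyWoody G c := by
  classical
  have : Fintype V := Fintype.ofFinite V
  let P : V → Finset V := fun v => Finset.univ.filter (fun w => G.Adj v w ∧ pos w < pos v)
  have hmem : ∀ v u, u ∈ P v ↔ G.Adj v u ∧ pos u < pos v := by
    intro v u
    simp [P]
  have hP1 : ∀ v, (P v).card ≤ d := by
    intro v
    refine le_trans (le_of_eq ?_) (hd v)
    rw [← Set.ncard_coe_finset]
    congr 1
    ext w
    simp [P]
  have hP2 : ∀ v, ∀ u ∈ P v, pos u < pos v := fun v u hu => ((hmem v u).mp hu).2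
  obtain ⟨idx, hidx⟩ := exists_idx pos P d hpos hP1 hP2
  obtain ⟨par, hpar⟩ := exists_par pos P hP2 idx (fun v => (hidx v).2.1)
  -- the colour of the edge from `v` to its parent `u`
  let κ : V → V → ℕ := fun v u => 2 * idx v u + (par u (idx v u)).toNat
  let c : Sym2 V → ℕ := Sym2.lift ⟨fun a b => if pos b < pos a then κ a b else
    if pos a < pos b then κ b a else 0, fun a b => by
      beta_reduce
      rcases lt_trichotomy (pos a) (pos b) with h | h | h
      · rw [if_neg (by omega), if_pos h, if_pos h]
      · rw [if_neg (by omega), if_neg (by omega), if_neg (by omega), if_neg (by omega)]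
      · rw [if_pos h, if_neg (by omega), if_pos h]⟩
  have hc : ∀ v u, pos u < pos v → c s(v, u) = κ v u := by
    intro v u h
    show (if pos u < pos v then κ v u else if pos v < pos u then κ u v else 0) = κ v u
    rw [if_pos h]
  have hb : ∀ b : Bool, b.toNat ≤ 1 := fun b => by cases b <;> decide
  refine ⟨c, ?_, ?_⟩
  · intro e he
    induction e using Sym2.ind with
    | _ a b =>
      rw [SimpleGraph.mem_edgeSet] at he
      have hne : pos a ≠ pos b := fun h => he.ne (hpos h)
      rcases lt_or_gt_of_ne hne with h | h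
      · rw [Sym2.eq_swap, hc b a h]
        have h1 := (hidx b).1 a ((hmem b a).mpr ⟨he.symm, h⟩)
        have h2 := hb (par a (idx b a))
        show 2 * idx b a + (par a (idx b a)).toNat < 2 * d
        omega
      · rw [hc a b h]
        have h1 := (hidx a).1 b ((hmem a b).mpr ⟨he, h⟩)
        have h2 := hb (par b (idx a b))
        show 2 * idx a b + (par b (idx a b)).toNat < 2 * d
        omega
  · rintro u v q hq hlen huv ⟨j, hj⟩
    -- decode the colour `j`
    have dec : ∀ x y, G.Adj x y → c s(x, y) = j →
        (y ∈ P x ∧ idx x y = j / 2 ∧ (par y (j / 2)).toNat = j % 2 ∧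
          (par x (j / 2)).toNat ≠ j % 2) ∨
        (x ∈ P y ∧ idx y x = j / 2 ∧ (par x (j / 2)).toNat = j % 2 ∧
          (par y (j / 2)).toNat ≠ j % 2) := by
      have aux : ∀ x y, G.Adj x y → pos y < pos x → c s(x, y) = j →
          (y ∈ P x ∧ idx x y = j / 2 ∧ (par y (j / 2)).toNat = j % 2 ∧
            (par x (j / 2)).toNat ≠ j % 2) := by
        intro x y hxy hlt hcol
        rw [hc x y hlt] at hcol
        have hcol' : 2 * idx x y + (par y (idx x y)).toNat = j := hcol
        have h2 := hb (par y (idx x y))
        have h3 : idx x y = j / 2 := by omega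
        have h4 : y ∈ P x := (hmem x y).mpr ⟨hxy, hlt⟩
        have h5 := hpar x y h4
        rw [h3] at h5 hcol' 
        refine ⟨h4, h3, by omega, ?_⟩
        rw [h5]
        cases hbb : par y (j / 2)
        · rw [hbb] at hcol'
          simp at hcol' ⊢
          omega
        · rw [hbb] at hcol'
          simp at hcol' ⊢
          omega
      intro x y hxy hcol
      have hne : pos x ≠ pos y := fun h => hxy.ne (hpos h)
      rcases lt_or_gt_of_ne hne with h | h
      · right
        rw [Sym2.eq_swap] at hcol
        exact aux y x hxy.symm h hcol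
      · left
        exact aux x y hxy h hcol
    cases q with
    | nil => simp at hlen
    | @cons _ a _ h1 q1 =>
      cases q1 with
      | nil => simp at hlen
      | @cons _ b _ h2 q2 =>
        rw [SimpleGraph.Walk.cons_isPath_iff, SimpleGraph.Walk.cons_isPath_iff] at hq
        obtain ⟨⟨hq2, haq2⟩, huq⟩ := hq
        rw [SimpleGraph.Walk.support_cons, List.mem_cons, not_or] at huq
        have hub : u ≠ b := by
          rintro rfl
          exact huq.2 q2.start_mem_support
        have e1 := hj s(u, a) (by simp)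
        have e2 := hj s(a, b) (by simp)
        -- `a` is the parent of both `u` and `b`
        have hpa : (a ∈ P u ∧ idx u a = j / 2) ∧ (a ∈ P b ∧ idx b a = j / 2) ∧
            (par b (j / 2)).toNat ≠ j % 2 := by
          rcases dec u a h1 e1 with ⟨f1, f2, f3, f4⟩ | ⟨f1, f2, f3, f4⟩
          · rcases dec a b h2 e2 with ⟨g1, g2, g3, g4⟩ | ⟨g1, g2, g3, g4⟩
            · exact absurd f3 g4
            · exact ⟨⟨f1, f2⟩, ⟨g1, g2⟩, g4⟩
          · rcases dec a b h2 e2 with ⟨g1, g2, g3, g4⟩ | ⟨g1, g2, g3, g4⟩
            · exact absurd ((hidx a).2.1 u f1 b g1 (by rw [f2, g2])) hub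
            · exact absurd g3 f4
        obtain ⟨⟨p1, p2⟩, ⟨p3, p4⟩, p5⟩ := hpa
        cases q2 with
        | nil =>
          -- `b = v`
          have hne : pos u ≠ pos v := fun h => huv.ne (hpos h)
          rcases lt_or_gt_of_ne hne with hlt | hlt
          · have hu : u ∈ P v := (hmem v u).mpr ⟨huv.symm, hlt⟩
            exact (hidx v).2.2 u hu a p3 (hP2 u a p1) (by rw [p2, p4])
          · have hv : v ∈ P u := (hmem u v).mpr ⟨huv, hlt⟩
            exact (hidx u).2.2 v hv a p1 (hP2 v a p3) (by rw [p2, p4])
        | @cons _ b' _ h3 q3 =>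
          have e3 := hj s(b, b') (by simp)
          have hab' : a ≠ b' := by
            rintro rfl
            rw [SimpleGraph.Walk.support_cons, List.mem_cons, not_or] at haq2
            exact haq2.2 q3.start_mem_support
          rcases dec b b' h3 e3 with ⟨g1, g2, g3, g4⟩ | ⟨g1, g2, g3, g4⟩
          · exact hab' ((hidx b).2.1 a p3 b' g1 (by rw [p4, g2]))
          · exact p5 g3

/-- the bound `ζ ≤ 2 (col - 1)` -/
theorem strongArb_le {V : Type} [Finite V] (G : SimpleGraph V) :
    strongArb G ≤ 2 * (colNumber G - 1) := by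
  have : Fintype V := Fintype.ofFinite V
  have hne : {r | ∃ pos : V → ℕ, Function.Injective pos ∧
      ∀ v, {w | G.Adj v w ∧ pos w < pos v}.ncard < r}.Nonempty := by
    refine ⟨Fintype.card V + 1, fun v => (Fintype.equivFin V v : ℕ),
      Fin.val_injective.comp (Fintype.equivFin V).injective, fun v => ?_⟩
    have h1 := Set.ncard_le_ncard (Set.subset_univ {w | G.Adj v w ∧
      (Fintype.equivFin V w : ℕ) < (Fintype.equivFin V v : ℕ)}) Set.finite_univ
    rw [Set.ncard_univ, Nat.card_eq_fintype_card] at h1
    exact Nat.lt_succ_of_le h1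
  obtain ⟨pos, hpos, hr⟩ := Nat.sInf_mem hne
  change ∀ v, {w | G.Adj v w ∧ pos w < pos v}.ncard < colNumber G at hr
  obtain ⟨c, hc1, hc2⟩ := upper G (colNumber G - 1) pos hpos (fun v => by
    have := hr v
    omega)
  exact Nat.sInf_le ⟨c, hc1, hc2⟩

/-! ### The lower bound -/

/-- In a strongly woody colouring three edges of a 4-cycle never have the same colour. -/
lemma four_cycle {V : Type} {G : SimpleGraph V} {c : Sym2 V → ℕ} (hc : IsStronglyWoody G c)
    {x y z t : V} (h1 : G.Adj x y) (h2 : G.Adj y z) (h3 : G.Adj z t) (h4 : G.Adj x t)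
    (hxz : x ≠ z) (hyt : y ≠ t) {j : ℕ} (e1 : c s(x, y) = j) (e2 : c s(y, z) = j)
    (e3 : c s(z, t) = j) : False := by
  refine hc x t (Walk.cons h1 (Walk.cons h2 (Walk.cons h3 Walk.nil))) ?_ ?_ h4 ⟨j, ?_⟩
  · simp [Walk.cons_isPath_iff, h1.ne, h2.ne, h3.ne, h4.ne, hxz, hyt]
  · simp
  · intro e he
    simp only [Walk.edges_cons, Walk.edges_nil, List.mem_cons, List.not_mem_nil, or_false] at he
    rcases he with rfl | rfl | rfl
    · exact e1
    · exact e2
    · exact e3

section Lower

variable (d N M : ℕ)

/-- The vertices of the lower bound graph: `d` vertices `u_j`, `N` vertices `a`, and `M` vertices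
for every map `f` from `Fin d` to the vertices `a`. -/
abbrev LV : Type := Fin d ⊕ (Fin N ⊕ ((Fin d → Fin N) × Fin M))

/-- adjacency of the lower bound graph, as a relation that is made symmetric below -/
def LRel : LV d N M → LV d N M → Prop
  | Sum.inl _, Sum.inr (Sum.inl _) => True
  | Sum.inr (Sum.inl a), Sum.inr (Sum.inr w) => ∃ i, w.1 i = a
  | _, _ => False

/-- The lower bound graph: every `u_j` is adjacent to every `a`, and the vertex `(f, m)` is
adjacent to the vertices `f i`. -/
def LG : SimpleGraph (LV d N M) where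
  Adj x y := LRel d N M x y ∨ LRel d N M y x
  symm := ⟨fun _ _ h => h.symm⟩
  loopless := ⟨by
    rintro (x | x | x) h <;> simp [LRel] at h⟩

/-- the vertex `u_j` -/
def vu (j : Fin d) : LV d N M := Sum.inl j

/-- the vertex `a` -/
def va (a : Fin N) : LV d N M := Sum.inr (Sum.inl a)

/-- the vertex `(f, m)` -/
def vw (f : Fin d → Fin N) (m : Fin M) : LV d N M := Sum.inr (Sum.inr (f, m))

lemma adj_ua (j : Fin d) (a : Fin N) : (LG d N M).Adj (vu d N M j) (va d N M a) :=
  Or.inl trivial

lemma adj_aw (f : Fin d → Fin N) (m : Fin M) (i : Fin d) :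
    (LG d N M).Adj (va d N M (f i)) (vw d N M f m) := Or.inl ⟨i, rfl⟩

lemma va_inj {a b : Fin N} (h : va d N M a = va d N M b) : a = b := by
  simpa [va] using h

lemma vu_inj {a b : Fin d} (h : vu d N M a = vu d N M b) : a = b := by
  simpa [vu] using h

lemma lower {d : ℕ} (hd : 2 ≤ d) (N M K : ℕ) (hK : K < 2 * d) (hN : K ^ d * d < N)
    (hM : K ^ d < M) (c : Sym2 (LV d N M) → ℕ) (hc : ∀ e ∈ (LG d N M).edgeSet, c e < K)
    (hsw : IsStronglyWoody (LG d N M) c) : False := by
  classical
  -- types of the vertices `a`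
  let τ : Fin N → (Fin d → Fin K) := fun a j =>
    ⟨c s(vu d N M j, va d N M a), hc _ (adj_ua d N M j a)⟩
  obtain ⟨y, hy⟩ := Fintype.exists_lt_card_fiber_of_mul_lt_card (f := τ) (n := d) (by
    rw [Fintype.card_fun, Fintype.card_fin, Fintype.card_fin, Fintype.card_fin]
    exact hN)
  let F := Finset.orderEmbOfCardLe (Finset.univ.filter (fun x => τ x = y)) hy.le
  let f : Fin d → Fin N := fun i => F i
  have hf : Function.Injective f := F.injective
  have hfy : ∀ i, τ (f i) = y := by
    intro i
    have := Finset.orderEmbOfCardLe_mem (Finset.univ.filter (fun x => τ x = y)) hy.le i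
    exact (Finset.mem_filter.mp this).2
  have hcol : ∀ i j, c s(vu d N M j, va d N M (f i)) = (y j : ℕ) := by
    intro i j
    have := congrFun (hfy i) j
    rw [← this]
  have hcol' : ∀ i j, c s(va d N M (f i), vu d N M j) = (y j : ℕ) := by
    intro i j
    rw [Sym2.eq_swap]
    exact hcol i j
  let i0 : Fin d := ⟨0, by omega⟩
  let i1 : Fin d := ⟨1, by omega⟩
  have hi01 : i0 ≠ i1 := by
    intro h
    have := congrArg Fin.val h
    simp [i0, i1] at this
  have hother : ∀ i : Fin d, ∃ i' : Fin d, i' ≠ i := by
    intro i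
    by_cases h : i = i0
    · exact ⟨i1, by rw [h]; exact hi01.symm⟩
    · exact ⟨i0, fun h' => h h'.symm⟩
  have hyinj : Function.Injective y := by
    intro j j' hjj
    by_contra hne
    exact four_cycle hsw (adj_ua d N M j (f i0)) (adj_ua d N M j' (f i0)).symm
      (adj_ua d N M j' (f i1)) (adj_ua d N M j (f i1)) (fun h => hne (vu_inj d N M h))
      (fun h => hi01 (hf (va_inj d N M h))) (hcol i0 j) (by rw [hcol' i0 j', hjj])
      (by rw [hcol i1 j', hjj])
  -- types of the vertices `w`
  let ψ : Fin M → (Fin d → Fin K) := fun m i =>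
    ⟨c s(va d N M (f i), vw d N M f m), hc _ (adj_aw d N M f m i)⟩
  obtain ⟨m, m', hmm, hψ⟩ := Fintype.exists_ne_map_eq_of_card_lt ψ (by
    rw [Fintype.card_fun, Fintype.card_fin, Fintype.card_fin, Fintype.card_fin]
    exact hM)
  have hψinj : Function.Injective (ψ m) := by
    intro i i' hii
    by_contra hne
    have e1 : c s(va d N M (f i), vw d N M f m) = (ψ m i : ℕ) := rfl
    have e2 : c s(vw d N M f m, va d N M (f i')) = (ψ m i : ℕ) := by
      rw [Sym2.eq_swap, hii]
    have e3 : c s(va d N M (f i'), vw d N M f m') = (ψ m i : ℕ) := by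
      rw [hii, hψ]
    refine four_cycle hsw (adj_aw d N M f m i) (adj_aw d N M f m i').symm
      (adj_aw d N M f m' i') (adj_aw d N M f m' i) (fun h => hne (hf (va_inj d N M h)))
      ?_ e1 e2 e3
    intro h
    apply hmm
    simpa [vw] using h
  have hdisj : ∀ i j, ψ m i ≠ y j := by
    intro i j h
    obtain ⟨i', hi'⟩ := hother i
    have e1 : c s(vw d N M f m, va d N M (f i)) = (y j : ℕ) := by
      rw [Sym2.eq_swap, ← h]
    refine four_cycle hsw (adj_aw d N M f m i).symm (adj_ua d N M j (f i)).symm
      (adj_ua d N M j (f i')) (adj_aw d N M f m i').symm ?_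
      (fun h => hi' (hf (va_inj d N M h)).symm) e1 (hcol' i j) (hcol i' j)
    simp [vw, vu]
  have h1 : ((Finset.univ.image (ψ m)) ∪ (Finset.univ.image y)).card = 2 * d := by
    rw [Finset.card_union_of_disjoint, Finset.card_image_of_injective _ hψinj,
      Finset.card_image_of_injective _ hyinj, Finset.card_univ, Fintype.card_fin]
    · ring
    · rw [Finset.disjoint_left]
      intro z hz hz'
      obtain ⟨i, -, hi⟩ := Finset.mem_image.mp hz
      obtain ⟨j, -, hj⟩ := Finset.mem_image.mp hz'
      exact hdisj i j (hi.trans hj.symm)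
  have h2 := Finset.card_le_univ ((Finset.univ.image (ψ m)) ∪ (Finset.univ.image y))
  rw [h1, Fintype.card_fin] at h2
  omega

/-- the ordering of the vertices of the lower bound graph -/
noncomputable def lpos : LV d N M → ℕ
  | Sum.inl j => j
  | Sum.inr (Sum.inl a) => d + a
  | Sum.inr (Sum.inr w) => d + N + (Fintype.equivFin ((Fin d → Fin N) × Fin M) w : ℕ)

lemma lpos_injective : Function.Injective (lpos d N M) := by
  rintro (x | x | x) (y | y | y) h
  · simp only [lpos] at h
    rw [Fin.ext h]
  · simp only [lpos] at h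
    omega
  · simp only [lpos] at h
    omega
  · simp only [lpos] at h
    omega
  · simp only [lpos] at h
    rw [Fin.ext (by omega : (x : ℕ) = y)]
  · simp only [lpos] at h
    omega
  · simp only [lpos] at h
    omega
  · simp only [lpos] at h
    omega
  · simp only [lpos] at h
    have h1 : (Fintype.equivFin ((Fin d → Fin N) × Fin M) x) =
        (Fintype.equivFin ((Fin d → Fin N) × Fin M) y) := Fin.ext (by omega)
    rw [(Fintype.equivFin ((Fin d → Fin N) × Fin M)).injective h1]

lemma lback (v : LV d N M) :
    {w | (LG d N M).Adj v w ∧ lpos d N M w < lpos d N M v}.ncard ≤ d := by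
  classical
  have himg : ∀ g : Fin d → LV d N M, {w | (LG d N M).Adj v w ∧
      lpos d N M w < lpos d N M v} ⊆ Set.range g →
      {w | (LG d N M).Adj v w ∧ lpos d N M w < lpos d N M v}.ncard ≤ d := by
    intro g hg
    refine (Set.ncard_le_ncard hg (Set.finite_range g)).trans ?_
    rw [← Set.image_univ]
    refine (Set.ncard_image_le Set.finite_univ).trans ?_
    rw [Set.ncard_univ, Nat.card_eq_fintype_card, Fintype.card_fin]
  rcases v with j | a | w
  · apply himg (vu d N M)
    rintro (y | y | y) ⟨hy, hlt⟩
    · exact ⟨y, rfl⟩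
    · simp only [lpos] at hlt
      omega
    · simp only [lpos] at hlt
      omega
  · apply himg (vu d N M)
    rintro (y | y | y) ⟨hy, hlt⟩
    · exact ⟨y, rfl⟩
    · rcases hy with hy | hy <;> simp [LRel] at hy
    · simp only [lpos] at hlt
      omega
  · apply himg (fun i => va d N M (w.1 i))
    rintro (y | y | y) ⟨hy, hlt⟩
    · rcases hy with hy | hy <;> simp [LRel] at hy
    · rcases hy with hy | ⟨i, hi⟩
      · simp [LRel] at hy
      · exact ⟨i, by simp [va, hi]⟩
    · rcases hy with hy | hy <;> simp [LRel] at hy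

end Lower

/-- The maximum strong arboricity of a graph with colouring number `r ≥ 3` is `2 (r - 1)`. -/
theorem exact (r : ℕ) (hr : 3 ≤ r) : ∃ (V : Type) (_ : Finite V) (G : SimpleGraph V),
    colNumber G = r ∧ strongArb G = 2 * (r - 1) := by
  obtain ⟨d, rfl⟩ : ∃ d, r = d + 1 := ⟨r - 1, by omega⟩
  have hd : 2 ≤ d := by omega
  let K := 2 * d - 1
  let N := K ^ d * d + 1
  let M := K ^ d + 1
  refine ⟨LV d N M, inferInstance, LG d N M, ?_⟩
  have h1 : colNumber (LG d N M) ≤ d + 1 :=
    Nat.sInf_le ⟨lpos d N M, lpos_injective d N M, fun v => Nat.lt_succ_of_le (lback d N M v)⟩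
  have h2 := strongArb_le (LG d N M)
  have h3 : 2 * d ≤ strongArb (LG d N M) := by
    obtain ⟨c, hc1, hc2⟩ := upper (LG d N M) d (lpos d N M) (lpos_injective d N M) (lback d N M)
    refine le_csInf ⟨_, c, hc1, hc2⟩ ?_
    rintro k ⟨c', hc1', hc2'⟩
    by_contra hlt
    exact lower hd N M K (by omega) (Nat.lt_succ_self _) (Nat.lt_succ_self _) c'
      (fun e he => by
        have := hc1' e he
        omega) hc2'
  have h4 : d + 1 - 1 = d := rfl
  rw [h4]
  omega

end Pool.Agent.R60.SW
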